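import Mathlib

set_option autoImplicit false

/-!
# The permutation-building game for generating the symmetric group, Convention I

Indices start from `0`: the `2 N` entries of the two words are numbered `0, …, 2 N - 1`, the entries
`0, …, N - 1` are the values of `σ`, the entries `N, …, 2 N - 1` those of `τ`. Under Convention I
player A chooses the entries with even index in each of the two words.

Player B wins for all `N ≥ 3`. For odd `N` player B makes the last free choice in both words and
makes both permutations even. For even `N` player B answers the value `v` by its partner in the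
matching `{0, 1}, {2, 3}, …`, so that `σ` and `τ` commute with the permutation which exchanges
partners. For `N ≤ 2` player A wins.
-/

namespace Pool.Agent.Results.MP_337ab5_co.GameConventionOne

open Equiv

/-- the entry number `j` of the play with the words `σ`, `τ` -/
def entry {N : ℕ} (σ τ : Perm (Fin N)) (j : ℕ) (hj : j < 2 * N) : Fin N :=
  if h : j < N then σ ⟨j, h⟩ else τ ⟨j - N, by omega⟩

/-- the list of the first `j` entries -/
def history {N : ℕ} (σ τ : Perm (Fin N)) (j : ℕ) (hj : j ≤ 2 * N) : List (Fin N) :=
  List.ofFn fun i : Fin j => entry σ τ i (lt_of_lt_of_le i.2 hj)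

/-- The player who chooses the entries `j` with `turn j` plays according to the strategy `S` (a
function of the previous entries) in all the entries before the entry `m`. -/
def Follows {N : ℕ} (turn : ℕ → Prop) (S : List (Fin N) → Fin N) (σ τ : Perm (Fin N)) (m : ℕ) :
    Prop :=
  ∀ j (hj : j < 2 * N), j < m → turn j → entry σ τ j hj = S (history σ τ j hj.le)

/-- The player who chooses the entries `j` with `turn j` has a winning strategy for the outcomes
`win σ τ`. The strategy has to be legal: the chosen value does not occur in the current word; and all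
the plays in which the player follows the strategy are won. -/
def HasWinningStrategy (N : ℕ) (turn : ℕ → Prop) (win : Perm (Fin N) → Perm (Fin N) → Prop) :
    Prop :=
  ∃ S : List (Fin N) → Fin N,
    (∀ (σ τ : Perm (Fin N)) (m : ℕ) (hm : m < 2 * N), turn m → Follows turn S σ τ m →
      ∀ i (hi : i < m), (m < N ∨ N ≤ i) →
        S (history σ τ m hm.le) ≠ entry σ τ i (hi.trans hm)) ∧
    ∀ σ τ : Perm (Fin N), Follows turn S σ τ (2 * N) → win σ τ

/-- Convention I: A chooses the entries with even index in each word (these are the odd positions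
`1, 3, 5, …` if the positions are numbered from `1`). -/
def turnI (N j : ℕ) : Prop := (j < N ∧ Even j) ∨ (N ≤ j ∧ Even (j - N))

/-- Convention II: A and B alternate over the `2 N` entries. -/
def turnII (j : ℕ) : Prop := Even j

/-- A wins the play: `σ` and `τ` generate the symmetric group. -/
def winA (N : ℕ) (σ τ : Perm (Fin N)) : Prop := Subgroup.closure {σ, τ} = ⊤

theorem turn_eq {N : ℕ} (hN : Even N) (j : ℕ) : turnII j ↔ turnI N j := by
  unfold turnII turnI
  rcases lt_or_ge j N with h | h
  · constructor
    · intro h1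
      exact Or.inl ⟨h, h1⟩
    · rintro (⟨-, h1⟩ | ⟨h1, -⟩)
      · exact h1
      · omega
  · constructor
    · intro h1
      refine Or.inr ⟨h, ?_⟩
      rw [Nat.even_sub h]
      exact ⟨fun _ => hN, fun _ => h1⟩
    · rintro (⟨h1, -⟩ | ⟨-, h1⟩)
      · omega
      · rw [Nat.even_sub h] at h1
        exact h1.2 hN

section small

theorem small {N : ℕ} (hN1 : 1 ≤ N) (hN : N ≤ 2) : HasWinningStrategy N (turnI N) (winA N) := by
  have hlast : N - 1 < N := by omega
  refine ⟨fun _ => ⟨N - 1, hlast⟩, ?_, ?_⟩
  · intro σ τ m hm ht hf i hi hmi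
    exfalso
    have : m = 0 ∨ m = N := by
      rcases ht with ⟨h1, h2⟩ | ⟨h1, h2⟩
      · left
        rcases h2 with ⟨r, hr⟩
        omega
      · right
        rcases h2 with ⟨r, hr⟩
        omega
    omega
  · intro σ τ hf
    unfold winA
    have h0 : σ ⟨0, hN1⟩ = ⟨N - 1, hlast⟩ := by
      have h := hf 0 (by omega) (by omega) (Or.inl ⟨hN1, Even.zero⟩)
      unfold entry at h
      rw [dif_pos (show 0 < N by omega)] at h
      exact h
    rw [Subgroup.eq_top_iff']
    intro π
    interval_cases N
    · have : π = 1 := Subsingleton.elim _ _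
      rw [this]
      exact Subgroup.one_mem _
    · have key : ∀ σ π : Perm (Fin 2), σ 0 = 1 → π = 1 ∨ π = σ := by decide
      rcases key σ π h0 with h | h
      · rw [h]; exact Subgroup.one_mem _
      · rw [h]; exact Subgroup.subset_closure (by simp)

end small

/-! ### the word in progress -/

/-- the index in the current word -/
def widx (N m : ℕ) : ℕ := if m < N then m else m - N

/-- the current word -/
def cur {N : ℕ} (σ τ : Perm (Fin N)) (m : ℕ) : Perm (Fin N) := if m < N then σ else τ

theorem widx_lt {N m : ℕ} (hm : m < 2 * N) : widx N m < N := by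
  unfold widx
  split_ifs <;> omega

theorem entry_eq {N : ℕ} (σ τ : Perm (Fin N)) (m : ℕ) (hm : m < 2 * N) :
    entry σ τ m hm = cur σ τ m ⟨widx N m, widx_lt hm⟩ := by
  unfold entry cur widx
  split_ifs with h <;> simp

/-- the values of the current word, computed from the history -/
def curVals {N : ℕ} (h : List (Fin N)) : List (Fin N) := if h.length < N then h else h.drop N

theorem history_length {N : ℕ} (σ τ : Perm (Fin N)) (m : ℕ) (hm : m ≤ 2 * N) :
    (history σ τ m hm).length = m := by
  unfold history
  rw [List.length_ofFn]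

theorem history_get {N : ℕ} (σ τ : Perm (Fin N)) (m : ℕ) (hm : m ≤ 2 * N) (i : ℕ) (hi : i < m) :
    (history σ τ m hm)[i]? = some (entry σ τ i (by omega)) := by
  unfold history
  rw [List.getElem?_eq_getElem (by rw [List.length_ofFn]; exact hi), List.getElem_ofFn]

theorem curVals_length {N : ℕ} (σ τ : Perm (Fin N)) (m : ℕ) (hm : m ≤ 2 * N) :
    (curVals (history σ τ m hm)).length = widx N m := by
  unfold curVals widx
  rw [history_length]
  split_ifs
  · rw [history_length]
  · rw [List.length_drop, history_length]

theorem curVals_get {N : ℕ} (σ τ : Perm (Fin N)) (m : ℕ) (hm : m < 2 * N) (i : ℕ)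
    (hi : i < widx N m) : (curVals (history σ τ m hm.le))[i]? =
      some (cur σ τ m ⟨i, hi.trans (widx_lt hm)⟩) := by
  unfold curVals
  rw [history_length]
  unfold widx at hi
  by_cases h : m < N
  · rw [if_pos h] at hi ⊢
    rw [history_get σ τ m hm.le i hi, entry_eq]
    unfold cur widx
    simp [h, show i < N by omega]
  · rw [if_neg h] at hi ⊢
    rw [List.getElem?_drop, history_get σ τ m hm.le (N + i) (by omega), entry_eq]
    unfold cur widx
    simp [h, show ¬ N + i < N by omega]

/-- an entry of the current word -/
theorem entry_cur {N : ℕ} (σ τ : Perm (Fin N)) (m i : ℕ) (hm : m < 2 * N) (hi : i < m)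
    (h : m < N ∨ N ≤ i) : ∃ k, ∃ hk : k < widx N m,
      entry σ τ i (hi.trans hm) = cur σ τ m ⟨k, hk.trans (widx_lt hm)⟩ := by
  rcases h with h | h
  · refine ⟨i, by unfold widx; rw [if_pos h]; exact hi, ?_⟩
    rw [entry_eq]
    unfold cur widx
    simp [h, show i < N by omega]
  · refine ⟨i - N, by unfold widx; rw [if_neg (by omega)]; omega, ?_⟩
    rw [entry_eq]
    unfold cur widx
    simp [show ¬ i < N by omega, show ¬ m < N by omega]

theorem turnB_iff {N : ℕ} (m : ℕ) (hm : m < 2 * N) : ¬ turnI N m ↔ Odd (widx N m) := by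
  unfold turnI widx
  split_ifs with h
  · rw [← Nat.not_even_iff_odd]
    constructor
    · intro h1 h2
      exact h1 (Or.inl ⟨h, h2⟩)
    · rintro h1 (⟨-, h2⟩ | ⟨h2, -⟩)
      · exact h1 h2
      · omega
  · rw [← Nat.not_even_iff_odd]
    constructor
    · intro h1 h2
      exact h1 (Or.inr ⟨by omega, h2⟩)
    · rintro h1 (⟨h2, -⟩ | ⟨-, h2⟩)
      · exact h h2
      · exact h1 h2

/-- the entries of the first word as a position of the play -/
theorem pos_first {N : ℕ} (σ τ : Perm (Fin N)) (i : ℕ) (hi : i < N) :
    ∃ m, ∃ _ : m < 2 * N, widx N m = i ∧ cur σ τ m = σ := by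
  refine ⟨i, by omega, ?_, ?_⟩
  · unfold widx; simp [hi]
  · unfold cur; simp [hi]

theorem pos_second {N : ℕ} (σ τ : Perm (Fin N)) (i : ℕ) (hi : i < N) :
    ∃ m, ∃ _ : m < 2 * N, widx N m = i ∧ cur σ τ m = τ := by
  refine ⟨N + i, by omega, ?_, ?_⟩
  · unfold widx; simp
  · unfold cur; simp

/-! ### odd `N` -/

section odd

/-- `π` is an even permutation which extends the word `w` -/
def EvenExt {N : ℕ} (w : List (Fin N)) (π : Perm (Fin N)) : Prop :=
  Perm.sign π = 1 ∧ ∀ i (hi : i < N), i < w.length → w[i]? = some (π ⟨i, hi⟩)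

open Classical in
/-- the strategy: play the next value of an even extension of the current word -/
noncomputable def stratOdd {N : ℕ} (v₀ : Fin N) (h : List (Fin N)) : Fin N :=
  if H : (∃ π, EvenExt (curVals h) π) ∧ (curVals h).length < N then
    H.1.choose ⟨(curVals h).length, H.2⟩ else v₀

theorem exists_evenExt {N : ℕ} (σ τ : Perm (Fin N)) (m : ℕ) (hm : m < 2 * N)
    (h2 : widx N m + 2 ≤ N) : ∃ π, EvenExt (curVals (history σ τ m hm.le)) π := by
  set ρ := cur σ τ m with hρ
  rcases Int.units_eq_one_or (Perm.sign ρ) with h | h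
  · refine ⟨ρ, h, fun i hi hw => ?_⟩
    rw [curVals_length] at hw
    exact curVals_get σ τ m hm i hw
  · refine ⟨ρ * swap ⟨N - 2, by omega⟩ ⟨N - 1, by omega⟩, ?_, fun i hi hw => ?_⟩
    · rw [Perm.sign_mul, h, Perm.sign_swap (by
        intro h3
        rw [Fin.mk.injEq] at h3
        omega)]
      rfl
    · rw [curVals_length] at hw
      rw [curVals_get σ τ m hm i hw, Perm.mul_apply, swap_apply_of_ne_of_ne]
      · intro h3
        rw [Fin.mk.injEq] at h3
        omega
      · intro h3
        rw [Fin.mk.injEq] at h3
        omega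

theorem stratOdd_spec {N : ℕ} (v₀ : Fin N) (σ τ : Perm (Fin N)) (m : ℕ) (hm : m < 2 * N)
    (h2 : widx N m + 2 ≤ N) : ∃ π : Perm (Fin N), Perm.sign π = 1 ∧
      (∀ i (hi : i < widx N m), π ⟨i, by omega⟩ = cur σ τ m ⟨i, by omega⟩) ∧
      stratOdd v₀ (history σ τ m hm.le) = π ⟨widx N m, by omega⟩ := by
  have H : (∃ π, EvenExt (curVals (history σ τ m hm.le)) π) ∧
      (curVals (history σ τ m hm.le)).length < N :=
    ⟨exists_evenExt σ τ m hm h2, by rw [curVals_length]; omega⟩
  refine ⟨H.1.choose, H.1.choose_spec.1, fun i hi => ?_, ?_⟩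
  · have h3 := H.1.choose_spec.2 i (by omega) (by rw [curVals_length]; exact hi)
    rw [curVals_get σ τ m hm i hi] at h3
    exact (Option.some.inj h3).symm
  · unfold stratOdd
    rw [dif_pos H]
    congr 2
    exact curVals_length σ τ m hm.le

theorem odd_case {N : ℕ} (hN : 3 ≤ N) (ho : Odd N) :
    HasWinningStrategy N (fun j => ¬ turnI N j) fun σ τ => ¬ winA N σ τ := by
  have hlt : ∀ m, m < 2 * N → ¬ turnI N m → widx N m + 2 ≤ N := by
    intro m hm ht
    rw [turnB_iff m hm] at ht
    have h1 := widx_lt hm
    obtain ⟨a, ha⟩ := ho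
    obtain ⟨b, hb⟩ := ht
    omega
  refine ⟨stratOdd ⟨0, by omega⟩, ?_, ?_⟩
  · intro σ τ m hm ht hf i hi hmi hcon
    obtain ⟨π, h1, h2, h3⟩ := stratOdd_spec (⟨0, by omega⟩ : Fin N) σ τ m hm (hlt m hm ht)
    obtain ⟨k, hk, hk2⟩ := entry_cur σ τ m i hm hi hmi
    rw [h3, hk2, ← h2 k hk] at hcon
    have := π.injective hcon
    rw [Fin.mk.injEq] at this
    omega
  · intro σ τ hf
    have hodd : Odd (N - 2) := by
      obtain ⟨a, ha⟩ := ho
      exact ⟨a - 1, by omega⟩
    have key : ∀ m (hm : m < 2 * N), widx N m = N - 2 → Perm.sign (cur σ τ m) = 1 := by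
      intro m hm hw
      have ht : ¬ turnI N m := by
        rw [turnB_iff m hm, hw]
        exact hodd
      obtain ⟨π, h1, h2, h3⟩ := stratOdd_spec (⟨0, by omega⟩ : Fin N) σ τ m hm (hlt m hm ht)
      have h4 := hf m hm hm ht
      rw [h3, entry_eq] at h4
      have h5 : cur σ τ m = π := by
        have h6 : ∀ x : Fin N, (x : ℕ) < N - 1 → cur σ τ m x = π x := by
          intro x hx
          rcases Nat.lt_or_ge x (N - 2) with h7 | h7
          · exact (h2 x (by rw [hw]; exact h7)).symm
          · have h8 : x = ⟨widx N m, widx_lt hm⟩ := by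
              apply Fin.ext
              show (x : ℕ) = widx N m
              omega
            rw [h8]
            exact h4
        apply Equiv.ext
        intro x
        by_cases hx : (x : ℕ) < N - 1
        · exact h6 x hx
        · -- the last value is forced
          obtain ⟨y, hy⟩ := (cur σ τ m).surjective (π x)
          by_cases hy1 : (y : ℕ) < N - 1
          · rw [h6 y hy1] at hy
            have := π.injective hy
            rw [this] at hy1
            exact absurd hy1 hx
          · have : y = x := by
              apply Fin.ext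
              have := x.2
              have := y.2
              omega
            rw [this] at hy
            exact hy
      rw [h5, h1]
    have hσ : Perm.sign σ = 1 := by
      obtain ⟨m, hm, h1, h2⟩ := pos_first σ τ (N - 2) (by omega)
      rw [← h2]
      exact key m hm h1
    have hτ : Perm.sign τ = 1 := by
      obtain ⟨m, hm, h1, h2⟩ := pos_second σ τ (N - 2) (by omega)
      rw [← h2]
      exact key m hm h1
    intro hw
    unfold winA at hw
    have hle : Subgroup.closure {σ, τ} ≤ alternatingGroup (Fin N) := by
      rw [Subgroup.closure_le]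
      rintro x (rfl | hx)
      · exact hσ
      · rw [Set.mem_singleton_iff] at hx
        rw [hx]
        exact hτ
    rw [hw, top_le_iff] at hle
    have h1 : swap (⟨0, by omega⟩ : Fin N) ⟨1, by omega⟩ ∈ alternatingGroup (Fin N) := by
      rw [hle]
      exact Subgroup.mem_top _
    rw [Perm.mem_alternatingGroup, Perm.sign_swap (by
      intro h3
      rw [Fin.mk.injEq] at h3
      omega)] at h1
    exact absurd h1 (by decide)

end odd

/-! ### even `N` -/

section even

/-- the partner of `i` -/
def pn (i : ℕ) : ℕ := if i % 2 = 0 then i + 1 else i - 1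

theorem pn_pn (i : ℕ) : pn (pn i) = i := by
  unfold pn
  split_ifs <;> omega

theorem pn_lt {N i : ℕ} (hN : Even N) (hi : i < N) : pn i < N := by
  obtain ⟨r, hr⟩ := hN
  unfold pn
  split_ifs <;> omega

/-- the permutation which exchanges partners -/
def pp {N : ℕ} (hN : Even N) : Perm (Fin N) where
  toFun x := ⟨pn x, pn_lt hN x.2⟩
  invFun x := ⟨pn x, pn_lt hN x.2⟩
  left_inv x := Fin.ext (pn_pn x)
  right_inv x := Fin.ext (pn_pn x)

theorem pp_pp {N : ℕ} (hN : Even N) (x : Fin N) : pp hN (pp hN x) = x := Fin.ext (pn_pn x)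

theorem even_case {N : ℕ} (hN : 3 ≤ N) (he : Even N) :
    HasWinningStrategy N (fun j => ¬ turnI N j) fun σ τ => ¬ winA N σ τ := by
  set S : List (Fin N) → Fin N := fun h => pp he (h.getLastD ⟨0, by omega⟩) with hS
  have hSval : ∀ (σ τ : Perm (Fin N)) (m : ℕ) (hm : m < 2 * N) (hw : 1 ≤ widx N m),
      S (history σ τ m hm.le) = pp he (cur σ τ m ⟨widx N m - 1, by
        have := widx_lt hm
        omega⟩) := by
    intro σ τ m hm hw
    have hm1 : 1 ≤ m := by
      unfold widx at hw
      split_ifs at hw <;> omega
    simp only [hS]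
    congr 1
    have h1 := history_get σ τ m hm.le (m - 1) (by omega)
    have h2 : (history σ τ m hm.le).getLastD ⟨0, by omega⟩ = entry σ τ (m - 1) (by omega) := by
      rw [List.getLastD_eq_getLast?, List.getLast?_eq_getElem?, history_length, h1]
      rfl
    rw [h2, entry_eq]
    unfold widx at hw
    unfold cur widx
    split_ifs at hw with h3
    · simp [h3, show m - 1 < N by omega]
    · simp only [h3, show ¬ m - 1 < N by omega, if_false]
      congr 2
      omega
  -- consequences for a word
  have hfol : ∀ (σ τ : Perm (Fin N)) (M : ℕ), Follows (fun j => ¬ turnI N j) S σ τ M →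
      ∀ m (hm : m < 2 * N), m < M → Odd (widx N m) →
        cur σ τ m ⟨widx N m, widx_lt hm⟩ = pp he (cur σ τ m ⟨widx N m - 1, by
          have := widx_lt hm
          omega⟩) := by
    intro σ τ M hf m hm hM ho
    have hw : 1 ≤ widx N m := ho.pos
    have h1 := hf m hm hM ((turnB_iff m hm).2 ho)
    rw [hSval σ τ m hm hw, entry_eq] at h1
    exact h1
  refine ⟨S, ?_, ?_⟩
  · intro σ τ m hm ht hf i hi hmi hcon
    have ho : Odd (widx N m) := (turnB_iff m hm).1 ht
    have hw : 1 ≤ widx N m := ho.pos
    obtain ⟨k, hk, hk2⟩ := entry_cur σ τ m i hm hi hmi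
    rw [hSval σ τ m hm hw, hk2] at hcon
    have hwlt := widx_lt hm
    -- the position of an earlier entry of the same word
    have hpos : ∀ l, l < widx N m → ∃ m', m' < m ∧ widx N m' = l ∧ cur σ τ m' = cur σ τ m := by
      intro l hl
      unfold widx at hl
      by_cases h : m < N
      · rw [if_pos h] at hl
        refine ⟨l, hl, ?_, ?_⟩
        · unfold widx; simp [show l < N by omega]
        · unfold cur; simp [h, show l < N by omega]
      · rw [if_neg h] at hl
        refine ⟨N + l, by omega, ?_, ?_⟩
        · unfold widx; simp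
        · unfold cur; simp [h]
    obtain ⟨a, ha⟩ := ho
    rcases Nat.even_or_odd k with ⟨b, hb⟩ | ⟨b, hb⟩
    · -- `k` even: the entry `k + 1` is the partner of the entry `k`
      rcases Nat.lt_or_ge (k + 1) (widx N m) with h3 | h3
      · obtain ⟨m', h4, h5, h6⟩ := hpos (k + 1) h3
        have h7 := hfol σ τ m hf m' (by omega) h4 ⟨b, by omega⟩
        simp only [h5, h6] at h7
        have h8 : cur σ τ m ⟨k + 1, by omega⟩ = cur σ τ m ⟨widx N m - 1, by omega⟩ := by
          rw [h7]
          simp only [Nat.add_sub_cancel]
          rw [← hcon, pp_pp]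
        have h9 := (cur σ τ m).injective h8
        rw [Fin.mk.injEq] at h9
        omega
      · -- `k = widx - 1`
        have h4 : k = widx N m - 1 := by omega
        subst h4
        have h5 := congrArg Fin.val hcon
        simp only [pp, Equiv.coe_fn_mk] at h5
        unfold pn at h5
        split_ifs at h5 <;> omega
    · obtain ⟨m', h4, h5, h6⟩ := hpos k hk
      have h7 := hfol σ τ m hf m' (by omega) h4 ⟨b, by omega⟩
      simp only [h5, h6] at h7
      have h8 : cur σ τ m ⟨widx N m - 1, by omega⟩ = cur σ τ m ⟨k - 1, by omega⟩ := by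
        rw [h7] at hcon
        exact (pp he).injective hcon
      have h9 := (cur σ τ m).injective h8
      rw [Fin.mk.injEq] at h9
      omega
  · intro σ τ hf hw
    have hcomm : ∀ ρ : Perm (Fin N), (∀ i (hi : i < N), Odd i →
        ρ ⟨i, hi⟩ = pp he (ρ ⟨i - 1, by omega⟩)) → Commute ρ (pp he) := by
      intro ρ h
      apply Equiv.ext
      intro x
      show ρ (pp he x) = pp he (ρ x)
      rcases Nat.even_or_odd (x : ℕ) with hx | hx
      · have h1 : pp he x = ⟨x + 1, by
            obtain ⟨r, hr⟩ := he
            obtain ⟨s, hs⟩ := hx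
            have := x.2
            omega⟩ := by
          apply Fin.ext
          show pn x = x + 1
          unfold pn
          rw [if_pos (Nat.even_iff.1 hx)]
        rw [h1, h _ _ (by
          obtain ⟨s, hs⟩ := hx
          exact ⟨s, by omega⟩)]
        simp only [Nat.add_sub_cancel]
      · have h1 : pp he x = ⟨x - 1, by omega⟩ := by
          apply Fin.ext
          show pn x = x - 1
          unfold pn
          rw [if_neg (by rw [Nat.odd_iff.1 hx]; norm_num)]
        have h2 := h x x.2 hx
        have h3 : (⟨(x : ℕ), x.2⟩ : Fin N) = x := rfl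
        rw [h3] at h2
        rw [h1, h2, pp_pp]
    have hσ : Commute σ (pp he) := by
      apply hcomm
      intro i hi ho
      have h := hfol σ τ (2 * N) hf i (by omega) (by omega) (by
        unfold widx; rw [if_pos hi]; exact ho)
      unfold cur widx at h
      simpa [hi] using h
    have hτ : Commute τ (pp he) := by
      apply hcomm
      intro i hi ho
      have h := hfol σ τ (2 * N) hf (N + i) (by omega) (by omega) (by
        unfold widx; simpa using ho)
      unfold cur widx at h
      simpa [hi] using h
    unfold winA at hw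
    have hle : Subgroup.closure {σ, τ} ≤ Subgroup.centralizer {pp he} := by
      rw [Subgroup.closure_le]
      rintro x (rfl | hx)
      · rw [SetLike.mem_coe, Subgroup.mem_centralizer_iff]
        rintro y hy
        rw [Set.mem_singleton_iff] at hy
        rw [hy]
        exact hσ.symm
      · rw [Set.mem_singleton_iff] at hx
        rw [hx, SetLike.mem_coe, Subgroup.mem_centralizer_iff]
        rintro y hy
        rw [Set.mem_singleton_iff] at hy
        rw [hy]
        exact hτ.symm
    rw [hw, top_le_iff] at hle
    have h1 : swap (⟨0, by omega⟩ : Fin N) ⟨2, by omega⟩ ∈ Subgroup.centralizer {pp he} := by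
      rw [hle]
      exact Subgroup.mem_top _
    rw [Subgroup.mem_centralizer_iff] at h1
    have h2 := h1 (pp he) (Set.mem_singleton _)
    have h3 := congrArg (fun g : Perm (Fin N) => ((g ⟨0, by omega⟩ : Fin N) : ℕ)) h2
    simp only [Perm.mul_apply, swap_apply_left] at h3
    have h4 : pp he ⟨0, by omega⟩ = ⟨1, by omega⟩ := rfl
    have hN4 : 3 < N := by
      obtain ⟨r, hr⟩ := he
      omega
    have h5 : pp he ⟨2, by omega⟩ = ⟨3, hN4⟩ := Fin.ext (by simp [pp, pn])
    rw [h4, h5, swap_apply_of_ne_of_ne] at h3
    · simp at h3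
    · intro h
      rw [Fin.mk.injEq] at h
      omega
    · intro h
      rw [Fin.mk.injEq] at h
      omega

end even

theorem large {N : ℕ} (hN : 3 ≤ N) :
    HasWinningStrategy N (fun j => ¬ turnI N j) fun σ τ => ¬ winA N σ τ := by
  rcases Nat.even_or_odd N with h | h
  · exact even_case hN h
  · exact odd_case hN h

/-- **The game under Convention I.** Player A has a winning strategy for `N ≤ 2` and player B has
a winning strategy for `N ≥ 3`; for even `N` the same holds under Convention II. -/
theorem result (N : ℕ) (hN : 1 ≤ N) :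
    (N ≤ 2 → HasWinningStrategy N (turnI N) (winA N)) ∧
    (3 ≤ N → HasWinningStrategy N (fun j => ¬ turnI N j) fun σ τ => ¬ winA N σ τ) ∧
    (Even N → (N ≤ 2 → HasWinningStrategy N turnII (winA N)) ∧
      (3 ≤ N → HasWinningStrategy N (fun j => ¬ turnII j) fun σ τ => ¬ winA N σ τ)) := by
  refine ⟨small hN, large, fun he => ?_⟩
  have h1 : turnII = turnI N := funext fun j => propext (turn_eq he j)
  rw [h1]
  exact ⟨small hN, large⟩

end Pool.Agent.Results.MP_337ab5_co.GameConventionOne
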